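import Pool.Agent.Helper68.GX.Spec

/-! GX (helper68), part `NIL`. -/

set_option autoImplicit false

namespace Pool.Agent.Helper6.GX.NIL

open Matrix Pool.Agent.Helper68.GX
open scoped Kronecker

lemma idem_zero {k : Type} [Field k] [CharZero k] {ι : Type} [Fintype ι] [DecidableEq ι]
    (e : Matrix ι ι k) (he : e * e = e) (ht : e.trace = 0) : e = 0 := by
  have h1 : IsIdempotentElem (Matrix.toLin' e) := by
    unfold IsIdempotentElem
    rw [Module.End.mul_eq_comp, ← Matrix.toLin'_mul, he]
  have h2 : LinearMap.trace k _ (Matrix.toLin' e) = 0 := by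
    rw [Matrix.trace_toLin'_eq, ht]
  have h3 := LinearMap.IsIdempotentElem.eq_zero_of_trace_eq_zero h1 h2
  exact Matrix.toLin'.injective (by rw [h3, map_zero])

lemma nil_of_trace {k : Type} [Field k] [CharZero k] {ι : Type} [Fintype ι] [DecidableEq ι]
    (A : Matrix ι ι k) (h : ∀ j : ℕ, 0 < j → (A ^ j).trace = 0) : IsNilpotent A := by
  classical
  have htr : ∀ g : Polynomial k, (Polynomial.aeval A (Polynomial.X * g)).trace = 0 := by
    intro g
    induction g using Polynomial.induction_on' with
    | add p q hp hq => rw [mul_add, map_add, Matrix.trace_add, hp, hq, add_zero]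
    | monomial n a =>
      rw [Polynomial.X_mul_monomial, Polynomial.aeval_monomial, ← Algebra.smul_def,
        Matrix.trace_smul, h _ (Nat.succ_pos n), smul_zero]
  obtain ⟨q, hq, hq0⟩ := Polynomial.exists_eq_pow_rootMultiplicity_mul_and_not_dvd A.charpoly
    (A.charpoly_monic.ne_zero) 0
  set a := A.charpoly.rootMultiplicity 0 with ha
  rw [Polynomial.C_0, sub_zero] at hq hq0
  have hcop : IsCoprime (Polynomial.X ^ (a + 1)) q := by
    refine IsCoprime.pow_left ?_
    exact (Irreducible.coprime_iff_not_dvd Polynomial.irreducible_X).2 hq0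
  obtain ⟨u, v, huv⟩ := hcop
  have hchar : Polynomial.aeval A (Polynomial.X ^ a * q) = 0 := by
    rw [← hq]
    exact Matrix.aeval_self_charpoly A
  have he2 : Polynomial.aeval A (u * Polynomial.X ^ (a + 1)) *
      Polynomial.aeval A (u * Polynomial.X ^ (a + 1)) =
      Polynomial.aeval A (u * Polynomial.X ^ (a + 1)) := by
    rw [← map_mul]
    have : u * Polynomial.X ^ (a + 1) * (u * Polynomial.X ^ (a + 1)) =
        u * Polynomial.X ^ (a + 1) - (Polynomial.X ^ a * q) * (v * u * Polynomial.X) := by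
      have h1 : u * Polynomial.X ^ (a + 1) = 1 - v * q := eq_sub_of_add_eq huv
      calc u * Polynomial.X ^ (a + 1) * (u * Polynomial.X ^ (a + 1))
          = u * Polynomial.X ^ (a + 1) * (1 - v * q) := by rw [← h1]
        _ = _ := by ring
    rw [this, map_sub, map_mul _ (Polynomial.X ^ a * q), hchar, zero_mul, sub_zero]
  have he0 : Polynomial.aeval A (u * Polynomial.X ^ (a + 1)) = 0 := by
    refine idem_zero _ he2 ?_
    have : u * Polynomial.X ^ (a + 1) = Polynomial.X * (u * Polynomial.X ^ a) := by ring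
    rw [this]
    exact htr _
  have h1 : Polynomial.aeval A (v * q) = 1 := by
    have h2 := congrArg (Polynomial.aeval A) huv
    rw [map_add, he0, zero_add, map_one] at h2
    exact h2
  refine ⟨a, ?_⟩
  have h3 : Polynomial.aeval A (Polynomial.X ^ a * (v * q)) = 0 := by
    have : Polynomial.X ^ a * (v * q) = (Polynomial.X ^ a * q) * v := by ring
    rw [this, map_mul, hchar, zero_mul]
  rw [map_mul, h1, mul_one, map_pow, Polynomial.aeval_X] at h3
  exact h3

lemma kron_pow {k : Type} [Field k] {ι κ : Type} [Fintype ι] [DecidableEq ι] [Fintype κ]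
    [DecidableEq κ] (A : Matrix ι ι k) (T : Matrix κ κ k) (j : ℕ) :
    (A ⊗ₖ T) ^ j = (A ^ j) ⊗ₖ (T ^ j) := by
  induction j with
  | zero => simp
  | succ j ih => rw [pow_succ, ih, pow_succ, pow_succ, Matrix.mul_kronecker_mul]

theorem main : Pool.Agent.Helper68.GX.S_NIL := by
  intro k _ _
  refine ⟨fun ι _ _ A h => nil_of_trace A h, ?_⟩
  intro ι κ _ _ _ _ _ A T hT h
  have h1 : IsNilpotent (A ⊗ₖ T) := by
    refine nil_of_trace _ fun j hj => ?_
    rw [kron_pow, Matrix.trace_kronecker, h j hj]
  obtain ⟨m, hm⟩ := h1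
  rw [kron_pow] at hm
  have h2 : T ^ m ≠ 0 := (hT.pow m).ne_zero
  have h3 : A ^ m = 0 := by
    by_contra h3
    obtain ⟨i, j, hij⟩ : ∃ i j, (A ^ m) i j ≠ 0 := by
      by_contra h4
      push Not at h4
      exact h3 (by ext i j; exact h4 i j)
    obtain ⟨i', j', hij'⟩ : ∃ i j, (T ^ m) i j ≠ 0 := by
      by_contra h4
      push Not at h4
      exact h2 (by ext i j; exact h4 i j)
    have h5 := congrFun (congrFun hm (i, i')) (j, j')
    rw [Matrix.kronecker_apply] at h5
    exact mul_ne_zero hij hij' h5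
  exact (Matrix.isNilpotent_trace_of_isNilpotent ⟨m, h3⟩).eq_zero

end Pool.Agent.Helper6.GX.NIL
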